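import Pool.Agent.H175R.A2.Defs
import Pool.Agent.H175R.Energy.Inertia

set_option autoImplicit false
open scoped BigOperators Matrix

namespace H175A2

lemma cl {U : Type} [Fintype U] [DecidableEq U] (G : SimpleGraph U)
    {P : Matrix U U ℝ} (hP : P.PosSemidef) (hQ : (P - Am G).PosSemidef) (K : Finset U)
    (hK : ∀ i ∈ K, ∀ j ∈ K, i ≠ j → G.Adj i j) : ∑ i ∈ K, (1 - P i i) ≤ 1 := by
  have h := Pool.Agent.H175R.Energy.clique_ineq (B := Am G) hP hQ (by abel)
    (fun i => by simp [Am]) (ι := {i // i ∈ K}) (fun i => i.1)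
    (fun x y hxy => by
      simp [Am, hK x x.2 y y.2 (Subtype.coe_injective.ne hxy)])
  rw [← Finset.sum_coe_sort]
  refine (Finset.sum_le_sum fun i _ => ?_).trans h
  exact le_max_left _ _

theorem bound (hHM : S_HM) (hMQ : S_MQ) (hPOL : S_POL) (hTRC : S_TRC) (hLOW : S_LOW)
    (hS2 : S_S2) (hTWO : S_TWO) (hCYC : S_CYC) (hODD : S_ODD) (hRED : S_RED) (hNUM : S_NUM)
    (V : Type) [Fintype V] [DecidableEq V] (F : SimpleGraph V) (hF : F.CliqueFree 3)
    (P : Matrix V V ℝ) (hP : P.PosSemidef) (hQ : (P - Am Fᶜ).PosSemidef) :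
    (Fintype.card V : ℝ) - 2 ≤ P.trace := by
  classical
  have htr : 0 ≤ P.trace := hP.trace_nonneg
  by_cases hn : Fintype.card V ≤ 2
  · have : (Fintype.card V : ℝ) ≤ 2 := by exact_mod_cast hn
    linarith
  push Not at hn
  have hn' : (2 : ℝ) < Fintype.card V := by exact_mod_cast hn
  by_cases hcol : F.Colorable 2
  · obtain ⟨C⟩ := hcol
    have h1 : ∀ i : Fin 2, ∑ v ∈ Finset.univ.filter (fun v => C v = i), (1 - P v v) ≤ 1 := by
      intro i
      refine cl Fᶜ hP hQ _ ?_
      intro u hu v hv huv
      rw [Finset.mem_filter] at hu hv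
      rw [SimpleGraph.compl_adj]
      refine ⟨huv, fun h => ?_⟩
      exact C.valid h (hu.2.trans hv.2.symm)
    have h2 : ∑ v, (1 - P v v) = ∑ i : Fin 2,
        ∑ v ∈ Finset.univ.filter (fun v => C v = i), (1 - P v v) :=
      (Finset.sum_fiberwise Finset.univ (fun v => C v) (fun v => 1 - P v v)).symm
    rw [Fin.sum_univ_two] at h2
    have h3 : ∑ v, (1 - P v v) = (Fintype.card V : ℝ) - P.trace := by
      simp [Matrix.trace]
    have := h1 0
    have := h1 1
    linarith
  · obtain ⟨k, c, hk, hodd, hinj, hadj⟩ := hODD V F hcol hF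
    obtain ⟨w₁, w₂, hne, hs1, hs2, hq⟩ := hCYC V F k c hk hodd hinj hadj
    have hM := hHM V F
    have h1 := hTWO V (MM F) hM w₁ w₂ hne (by
      intro a b
      rw [hMQ V F (a • w₁ + b • w₂) (by
        simp only [Pi.add_apply, Pi.smul_apply, smul_eq_mul]
        rw [Finset.sum_add_distrib, ← Finset.mul_sum, ← Finset.mul_sum, hs1, hs2]
        ring)]
      have h2 := hq a b
      simp only [dotProduct, Pi.add_apply, Pi.smul_apply, smul_eq_mul]
      refine le_trans (le_of_eq ?_) (h2.trans (le_of_eq ?_))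
      · congr 1
        exact Finset.sum_congr rfl fun v _ => by ring
      · rfl)
    obtain ⟨h2, i₁, h3⟩ := h1
    have hne' : Nonempty V := ⟨i₁⟩
    obtain ⟨i₀, hi₀⟩ := Finite.exists_max hM.eigenvalues
    have hpos : 0 < Fintype.card V := by omega
    have h4 := hLOW V F hM (hM.eigenvalues i₀) hpos hi₀
    obtain ⟨h5, h6⟩ := hS2 V F hF hpos
    obtain ⟨t1, t2, t3⟩ := hTRC V F hF hpos
    have h7 := hRED V F hM P hpos hP hQ
    have h8 := hNUM (Fintype.card V) (dbar F) (s2 F - dbar F ^ 2) (s3 F) (hM.eigenvalues i₀)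
      (ps (MM F) hM) hn' (by linarith) (by linarith) (h3.trans (hi₀ i₁)) (h2 i₀) h4 (by
        intro c hc
        have h9 := hPOL V (MM F) hM (hM.eigenvalues i₀) c
          (le_trans (by norm_num) (h3.trans (hi₀ i₁))) hc hi₀
        rw [t1, t2, t3] at h9
        refine le_trans (le_of_eq ?_) h9
        ring)
    linarith

/-- graphs with independence number at most two -/
theorem alpha_two (hb : ∀ (V : Type) [Fintype V] [DecidableEq V] (F : SimpleGraph V),
      F.CliqueFree 3 → ∀ P : Matrix V V ℝ, P.PosSemidef → (P - Am Fᶜ).PosSemidef →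
      (Fintype.card V : ℝ) - 2 ≤ P.trace)
    (V : Type) [Fintype V] [DecidableEq V] (G : SimpleGraph V) [DecidableRel G.Adj]
    (s : Finset V) (hs : G.IsIndepSet (s : Set V))
    (hmax : ∀ t : Finset V, G.IsIndepSet (t : Set V) → t.card ≤ s.card) (h2 : s.card ≤ 2) :
    (Fintype.card V : ℝ) - (s.card : ℝ) ≤
      (((G.adjMatrix ℝ).charpoly.roots).filter (fun x : ℝ => 0 < x)).sum := by
  classical
  have hA : (G.adjMatrix ℝ).IsHermitian := by
    ext i j; simpa using (G.isSymm_adjMatrix (α := ℝ)).apply i j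
  obtain ⟨P, Q, hP, hQ, hPQ, htr⟩ := Pool.Agent.H175R.Energy.split hA
  have hAm : Am G = G.adjMatrix ℝ := by
    ext i j
    simp only [Am, Matrix.of_apply, SimpleGraph.adjMatrix_apply]
    split_ifs <;> rfl
  have hQ' : (P - Am G).PosSemidef := by
    rw [hAm, hPQ]
    convert hQ using 1
    abel
  have h5 : P.trace = (((G.adjMatrix ℝ).charpoly.roots).filter (fun x : ℝ => 0 < x)).sum := htr
  rw [← h5]
  have htr0 : 0 ≤ P.trace := hP.trace_nonneg
  rcases Nat.lt_or_ge s.card 2 with h3 | h3
  · -- complete graphs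
    have h4 := cl G hP hQ' Finset.univ (by
      intro i _ j _ hij
      by_contra h
      have h6 := hmax {i, j} (by
        intro a ha b hb hab
        simp only [Finset.coe_insert, Finset.coe_singleton, Set.mem_insert_iff,
          Set.mem_singleton_iff] at ha hb
        rcases ha with rfl | rfl <;> rcases hb with rfl | rfl
        · exact absurd rfl hab
        · exact h
        · exact fun h' => h h'.symm
        · exact absurd rfl hab)
      rw [Finset.card_pair hij] at h6
      omega)
    have h7 : ∑ v, (1 - P v v) = (Fintype.card V : ℝ) - P.trace := by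
      simp [Matrix.trace]
    rw [h7] at h4
    rcases Nat.eq_zero_or_pos s.card with h8 | h8
    · have h9 : Fintype.card V = 0 := by
        by_contra h
        have : 0 < Fintype.card V := Nat.pos_of_ne_zero h
        obtain ⟨v⟩ := Fintype.card_pos_iff.1 this
        have h6 := hmax {v} (by simp [SimpleGraph.IsIndepSet])
        rw [Finset.card_singleton] at h6
        omega
      rw [h8, h9]
      simpa using htr0
    · have : (1 : ℝ) ≤ s.card := by exact_mod_cast h8
      linarith
  · have h4 : (s.card : ℝ) = 2 := by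
      have : s.card = 2 := by omega
      rw [this]; norm_num
    rw [h4]
    refine hb V Gᶜ ?_ P hP (by rw [compl_compl]; exact hQ')
    intro t ht
    have h6 := hmax t (by
      have := ht.isClique
      rw [SimpleGraph.isClique_compl] at this
      exact this)
    rw [ht.card_eq] at h6
    omega

end H175A2
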