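import Mathlib

set_option autoImplicit false
open scoped BigOperators Matrix

namespace H175A2

/-- sum of the positive eigenvalues -/
noncomputable def ps {V : Type} [Fintype V] [DecidableEq V] (M : Matrix V V ℝ)
    (h : M.IsHermitian) : ℝ := ∑ i, max (h.eigenvalues i) 0

open Classical in
/-- adjacency matrix -/
noncomputable def Am {V : Type} (F : SimpleGraph V) : Matrix V V ℝ :=
  Matrix.of fun u v => if F.Adj u v then 1 else 0

noncomputable def dd {V : Type} [Fintype V] (F : SimpleGraph V) (v : V) : ℝ := ∑ w, Am F v w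
noncomputable def dbar {V : Type} [Fintype V] (F : SimpleGraph V) : ℝ :=
  (∑ v, dd F v) / (Fintype.card V : ℝ)
noncomputable def s2 {V : Type} [Fintype V] (F : SimpleGraph V) : ℝ :=
  (∑ v, dd F v ^ 2) / (Fintype.card V : ℝ)
noncomputable def s3 {V : Type} [Fintype V] (F : SimpleGraph V) : ℝ :=
  (∑ u, ∑ v, Am F u v * dd F u * dd F v) / (Fintype.card V : ℝ)

/-- projection onto the orthogonal complement of the constants -/
noncomputable def Pr (V : Type) [Fintype V] [DecidableEq V] : Matrix V V ℝ :=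
  1 - Matrix.of fun _ _ => 1 / (Fintype.card V : ℝ)

noncomputable def MM {V : Type} [Fintype V] [DecidableEq V] (F : SimpleGraph V) :
    Matrix V V ℝ := -(Pr V * (1 + Am F) * Pr V)

/-- (HM) -/
def S_HM : Prop := ∀ (V : Type) [Fintype V] [DecidableEq V] (F : SimpleGraph V),
  (MM F).IsHermitian

/-- (MQ) quadratic form on vectors with sum 0 -/
def S_MQ : Prop := ∀ (V : Type) [Fintype V] [DecidableEq V] (F : SimpleGraph V) (w : V → ℝ),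
  ∑ v, w v = 0 → w ⬝ᵥ (MM F *ᵥ w) = -(∑ v, w v ^ 2) - ∑ u, ∑ v, Am F u v * w u * w v

/-- (POL) polynomial lower bound -/
def S_POL : Prop := ∀ (V : Type) [Fintype V] [DecidableEq V] (M : Matrix V V ℝ)
  (h : M.IsHermitian) (l c : ℝ), 0 ≤ l → 0 ≤ c → (∀ i, h.eigenvalues i ≤ l) →
  (M * M * M).trace + 2 * c * (M * M).trace + c ^ 2 * M.trace ≤ (l + c) ^ 2 * ps M h

/-- (TRC) traces -/
def S_TRC : Prop := ∀ (V : Type) [Fintype V] [DecidableEq V] (F : SimpleGraph V),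
  F.CliqueFree 3 → 0 < Fintype.card V →
  (MM F).trace = -((Fintype.card V : ℝ) - 1) + dbar F ∧
  (MM F * MM F).trace = ((Fintype.card V : ℝ) - 1) - 2 * dbar F +
    ((Fintype.card V : ℝ) * dbar F - 2 * s2 F + dbar F ^ 2) ∧
  (MM F * MM F * MM F).trace = -(((Fintype.card V : ℝ) - 1) - 3 * dbar F +
    3 * ((Fintype.card V : ℝ) * dbar F - 2 * s2 F + dbar F ^ 2) +
    (-3 * s3 F + 3 * dbar F * s2 F - dbar F ^ 3))

/-- (LOW) -/
def S_LOW : Prop := ∀ (V : Type) [Fintype V] [DecidableEq V] (F : SimpleGraph V)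
  (h : (MM F).IsHermitian) (l : ℝ), 0 < Fintype.card V → (∀ i, h.eigenvalues i ≤ l) →
  dbar F ^ 3 + (2 * dbar F - (l + 1)) * (s2 F - dbar F ^ 2) ≤ s3 F

/-- (S2) -/
def S_S2 : Prop := ∀ (V : Type) [Fintype V] [DecidableEq V] (F : SimpleGraph V),
  F.CliqueFree 3 → 0 < Fintype.card V →
  2 * s2 F ≤ (Fintype.card V : ℝ) * dbar F ∧ dbar F ^ 2 ≤ s2 F

/-- (TWO) two large eigenvalues -/
def S_TWO : Prop := ∀ (V : Type) [Fintype V] [DecidableEq V] (M : Matrix V V ℝ)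
  (h : M.IsHermitian) (w₁ w₂ : V → ℝ),
  (∀ a b : ℝ, (a ≠ 0 ∨ b ≠ 0) → a • w₁ + b • w₂ ≠ 0) →
  (∀ a b : ℝ, 1 / 4 * ((a • w₁ + b • w₂) ⬝ᵥ (a • w₁ + b • w₂)) ≤
    (a • w₁ + b • w₂) ⬝ᵥ (M *ᵥ (a • w₁ + b • w₂))) →
  (∀ i, h.eigenvalues i + 1 / 4 ≤ ps M h) ∧ ∃ i, 1 / 4 ≤ h.eigenvalues i

/-- (CYC) vectors on an induced odd cycle -/
def S_CYC : Prop := ∀ (V : Type) [Fintype V] [DecidableEq V] (F : SimpleGraph V) (k : ℕ)
  (c : ZMod k → V), 5 ≤ k → Odd k → Function.Injective c →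
  (∀ i j, F.Adj (c i) (c j) ↔ (j = i + 1 ∨ i = j + 1)) →
  ∃ w₁ w₂ : V → ℝ, (∀ a b : ℝ, (a ≠ 0 ∨ b ≠ 0) → a • w₁ + b • w₂ ≠ 0) ∧
    (∑ v, w₁ v = 0) ∧ (∑ v, w₂ v = 0) ∧
    ∀ a b : ℝ, 1 / 4 * ∑ v, (a * w₁ v + b * w₂ v) ^ 2 ≤ -(∑ v, (a * w₁ v + b * w₂ v) ^ 2) -
      ∑ u, ∑ v, Am F u v * (a * w₁ u + b * w₂ u) * (a * w₁ v + b * w₂ v)

/-- (ODD) a graph which is neither bipartite nor has a triangle has an induced odd cycle -/
def S_ODD : Prop := ∀ (V : Type) [Fintype V] (F : SimpleGraph V), ¬ F.Colorable 2 →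
  F.CliqueFree 3 → ∃ (k : ℕ) (c : ZMod k → V), 5 ≤ k ∧ Odd k ∧ Function.Injective c ∧
    ∀ i j, F.Adj (c i) (c j) ↔ (j = i + 1 ∨ i = j + 1)

/-- (RED) reduction to `MM` -/
def S_RED : Prop := ∀ (V : Type) [Fintype V] [DecidableEq V] (F : SimpleGraph V)
  (h : (MM F).IsHermitian) (P : Matrix V V ℝ), 0 < Fintype.card V → P.PosSemidef →
  (P - Am Fᶜ).PosSemidef → (Fintype.card V : ℝ) - 1 - dbar F + ps (MM F) h ≤ P.trace

/-- (NUM) the final inequality; `l` the largest eigenvalue, `s = s2 - d^2` -/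
def S_NUM : Prop := ∀ n d σ x l S : ℝ, 2 < n → 0 ≤ σ → 2 * (d ^ 2 + σ) ≤ n * d → 1 / 4 ≤ l →
  l + 1 / 4 ≤ S → d ^ 3 + (2 * d - (l + 1)) * σ ≤ x →
  (∀ c : ℝ, 0 ≤ c →
    -((n - 1) - 3 * d + 3 * (n * d - 2 * (d ^ 2 + σ) + d ^ 2) +
      (-3 * x + 3 * d * (d ^ 2 + σ) - d ^ 3)) +
    2 * c * ((n - 1) - 2 * d + (n * d - 2 * (d ^ 2 + σ) + d ^ 2)) +
    c ^ 2 * (-(n - 1) + d) ≤ (l + c) ^ 2 * S) → d - 1 ≤ S

end H175A2
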