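import Pool.Agent.H175R.A2.Defs

set_option autoImplicit false
open scoped BigOperators Matrix

namespace H175A2

theorem CYC_ext0 {V : Type} {k : ℕ} (c : ZMod k → V) (x : ZMod k → ℝ) (v : V)
    (hv : v ∉ Set.range c) : Function.extend c x 0 v = 0 := by
  rw [Function.extend_apply' _ _ _ (by simpa using hv)]
  rfl

theorem CYC_char (k : ℕ) [NeZero k] (hk : 5 ≤ k) (ho : Odd k) :
    ∃ χ : ZMod k → ℂ, χ 0 = 1 ∧ (∀ i, χ (i + 1) = χ 1 * χ i) ∧ (∑ i, χ i = 0) ∧
      (χ 1).re ≤ -(5 / 8) ∧ 0 < (χ 1).im ∧ (χ 1).re ^ 2 + (χ 1).im ^ 2 = 1 := by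
  obtain ⟨r, hr⟩ := ho
  let m : ZMod k := ((r : ℤ) : ZMod k)
  have hk0 : (0 : ℝ) < k := by exact_mod_cast (by omega : 0 < k)
  have hm : ZMod.stdAddChar m = Complex.exp (((Real.pi - Real.pi / k : ℝ) : ℂ) * Complex.I) := by
    show ZMod.stdAddChar (((r : ℤ) : ZMod k)) = _
    rw [ZMod.stdAddChar_coe]
    congr 1
    have h1 : (k : ℂ) = 2 * r + 1 := by exact_mod_cast hr
    have h2 : (k : ℂ) ≠ 0 := by exact_mod_cast hk0.ne'
    push_cast
    field_simp
    rw [h1]
    ring
  have hre : (ZMod.stdAddChar m).re = -Real.cos (Real.pi / k) := by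
    rw [hm, Complex.exp_ofReal_mul_I_re, Real.cos_pi_sub]
  have him : (ZMod.stdAddChar m).im = Real.sin (Real.pi / k) := by
    rw [hm, Complex.exp_ofReal_mul_I_im, Real.sin_pi_sub]
  have hpk : Real.pi / k ≤ 0.63 := by
    rw [div_le_iff₀ hk0]
    have : (5 : ℝ) ≤ k := by exact_mod_cast hk
    have := Real.pi_lt_d2
    nlinarith
  have hpk0 : 0 < Real.pi / k := by positivity
  have hsin : 0 < Real.sin (Real.pi / k) := by
    apply Real.sin_pos_of_pos_of_lt_pi hpk0
    have := Real.pi_gt_three
    linarith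
  have hcos : 5 / 8 ≤ Real.cos (Real.pi / k) := by
    have := Real.one_sub_sq_div_two_le_cos (x := Real.pi / k)
    nlinarith
  refine ⟨fun i => ZMod.stdAddChar (m * i), ?_, ?_, ?_, ?_, ?_, ?_⟩
  · simp
  · intro i
    show ZMod.stdAddChar (m * (i + 1)) = ZMod.stdAddChar (m * 1) * ZMod.stdAddChar (m * i)
    rw [← AddChar.map_add_eq_mul]
    congr 1
    ring
  · have h1 : ∑ i : ZMod k, ZMod.stdAddChar (m * i) = ∑ i : ZMod k, ZMod.stdAddChar (m * (i + 1)) :=
      (Fintype.sum_equiv (Equiv.addRight (1 : ZMod k)) _ _ (fun i => rfl)).symm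
    have h2 : ∑ i : ZMod k, ZMod.stdAddChar (m * (i + 1)) =
        ZMod.stdAddChar m * ∑ i : ZMod k, ZMod.stdAddChar (m * i) := by
      rw [Finset.mul_sum]
      apply Finset.sum_congr rfl
      intro i _
      rw [← AddChar.map_add_eq_mul]
      congr 1
      ring
    rw [h2] at h1
    have h3 : (1 - ZMod.stdAddChar m) * ∑ i : ZMod k, ZMod.stdAddChar (m * i) = 0 := by
      rw [sub_mul, one_mul, ← h1, sub_self]
    rcases mul_eq_zero.1 h3 with h4 | h4
    · exfalso
      have h5 := congrArg Complex.im h4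
      rw [Complex.sub_im, Complex.one_im, him, Complex.zero_im] at h5
      linarith
    · exact h4
  · show (ZMod.stdAddChar (m * 1)).re ≤ _
    rw [mul_one, hre]; linarith
  · show 0 < (ZMod.stdAddChar (m * 1)).im
    rw [mul_one, him]; exact hsin
  · show (ZMod.stdAddChar (m * 1)).re ^ 2 + (ZMod.stdAddChar (m * 1)).im ^ 2 = 1
    rw [mul_one, hre, him]
    have := Real.sin_sq_add_cos_sq (Real.pi / k)
    linarith

theorem t_CYC : S_CYC := by
  classical
  intro V _ _ F k c hk ho hc hadj
  have : NeZero k := ⟨by omega⟩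
  obtain ⟨χ, h0, hs, hsum, hre, him, hn⟩ := CYC_char k hk ho
  have h2 : (1 : ZMod k) + 1 ≠ 0 := by
    intro h
    have h3 : ((2 : ℕ) : ZMod k) = 0 := by push_cast; rw [← h]; ring
    rw [ZMod.natCast_eq_zero_iff] at h3
    have := Nat.le_of_dvd (by norm_num) h3
    omega
  have hx1 : ∀ i, Function.extend c (fun i => (χ i).re) 0 (c i) = (χ i).re :=
    fun i => hc.extend_apply _ _ i
  have hx2 : ∀ i, Function.extend c (fun i => (χ i).im) 0 (c i) = (χ i).im :=
    fun i => hc.extend_apply _ _ i
  refine ⟨Function.extend c (fun i => (χ i).re) 0, Function.extend c (fun i => (χ i).im) 0,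
    ?_, ?_, ?_, ?_⟩
  · intro a b hab h
    have e0 := congrFun h (c 0)
    have e1 := congrFun h (c 1)
    simp only [Pi.add_apply, Pi.smul_apply, smul_eq_mul, hx1, hx2, Pi.zero_apply] at e0 e1
    rw [h0, Complex.one_re, Complex.one_im] at e0
    have ha : a = 0 := by linarith
    rw [ha, zero_mul, zero_add] at e1
    have hb : b = 0 := by
      rcases mul_eq_zero.1 e1 with h | h
      · exact h
      · linarith
    rcases hab with h | h
    · exact h ha
    · exact h hb
  · rw [← Fintype.sum_of_injective c hc (fun i => (χ i).re) _ (fun v hv => CYC_ext0 c _ v hv)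
      (fun i => (hx1 i).symm)]
    rw [← Complex.re_sum, hsum, Complex.zero_re]
  · rw [← Fintype.sum_of_injective c hc (fun i => (χ i).im) _ (fun v hv => CYC_ext0 c _ v hv)
      (fun i => (hx2 i).symm)]
    rw [← Complex.im_sum, hsum, Complex.zero_im]
  · intro a b
    set z : ZMod k → ℝ := fun i => a * (χ i).re + b * (χ i).im with hz
    set w₁ := Function.extend c (fun i => (χ i).re) 0
    set w₂ := Function.extend c (fun i => (χ i).im) 0
    have hzero : ∀ v, v ∉ Set.range c → a * w₁ v + b * w₂ v = 0 := by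
      intro v hv
      rw [show w₁ v = 0 from CYC_ext0 c _ v hv, show w₂ v = 0 from CYC_ext0 c _ v hv]; ring
    have hS1 : ∑ v, (a * w₁ v + b * w₂ v) ^ 2 = ∑ i, z i ^ 2 := by
      refine (Fintype.sum_of_injective c hc (fun i => z i ^ 2) _ (fun v hv => ?_)
        (fun i => ?_)).symm
      · simp only [hzero v hv]; norm_num
      · simp only [hz, hx1, hx2]
    have hS2 : ∑ u, ∑ v, Am F u v * (a * w₁ u + b * w₂ u) * (a * w₁ v + b * w₂ v) =
        ∑ i, ∑ j, Am F (c i) (c j) * z i * z j := by
      refine (Fintype.sum_of_injective c hc (fun i => ∑ j, Am F (c i) (c j) * z i * z j) _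
        (fun v hv => ?_) (fun i => ?_)).symm
      · apply Finset.sum_eq_zero
        intro u _
        rw [hzero v hv]; ring
      · refine Fintype.sum_of_injective c hc _ _ (fun v hv => ?_) (fun j => ?_)
        · rw [hzero v hv]; ring
        · simp only [hz, hx1, hx2]
    have hA : ∀ i j, Am F (c i) (c j) = (if j = i + 1 then 1 else 0) + (if i = j + 1 then 1 else 0) := by
      intro i j
      unfold Am
      simp only [Matrix.of_apply, hadj]
      by_cases h3 : j = i + 1
      · have h4 : ¬ i = j + 1 := by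
          intro h4
          rw [h3, add_assoc] at h4
          exact h2 (by
            have := h4.symm
            simpa using this)
        simp [h3]
        intro h5
        exact absurd (by rw [h3]; exact h5) h4
      · simp [h3]
    have hshift : ∑ i, z (i + 1) * z i = ∑ i, z i * z (i + 1) :=
      Finset.sum_congr rfl fun i _ => mul_comm _ _
    have hS3 : ∑ i, ∑ j, Am F (c i) (c j) * z i * z j = 2 * ∑ i, z i * z (i + 1) := by
      have e1 : ∀ i j, Am F (c i) (c j) * z i * z j =
          (if j = i + 1 then z i * z j else 0) + (if i = j + 1 then z i * z j else 0) := by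
        intro i j
        rw [hA]
        split_ifs <;> ring
      simp only [e1, Finset.sum_add_distrib]
      have e2 : ∑ i, ∑ j, (if i = j + 1 then z i * z j else 0) = ∑ j, z (j + 1) * z j := by
        rw [Finset.sum_comm]
        apply Finset.sum_congr rfl
        intro j _
        rw [Finset.sum_ite_eq' Finset.univ (j + 1)]
        simp
      have e3 : ∑ i, ∑ j, (if j = i + 1 then z i * z j else 0) = ∑ i, z i * z (i + 1) := by
        apply Finset.sum_congr rfl
        intro i _
        rw [Finset.sum_ite_eq' Finset.univ (i + 1)]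
        simp
      rw [e2, e3, hshift]; ring
    -- the recursion
    have hrec : ∀ i, z (i + 1 + 1) + z i = 2 * (χ 1).re * z (i + 1) := by
      intro i
      simp only [hz]
      rw [hs (i + 1), hs i]
      simp only [Complex.mul_re, Complex.mul_im]
      have : (χ 1).im ^ 2 = 1 - (χ 1).re ^ 2 := by linarith
      have e : ∀ p q : ℝ, a * ((χ 1).re * ((χ 1).re * p - (χ 1).im * q) -
          (χ 1).im * ((χ 1).re * q + (χ 1).im * p)) +
          b * ((χ 1).re * ((χ 1).re * q + (χ 1).im * p) +
          (χ 1).im * ((χ 1).re * p - (χ 1).im * q)) + (a * p + b * q) =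
          2 * (χ 1).re * (a * ((χ 1).re * p - (χ 1).im * q) + b * ((χ 1).re * q + (χ 1).im * p)) := by
        intro p q
        linear_combination (-(a * p) - b * q) * hn
      exact e _ _
    have hS4 : 2 * ∑ i, z i * z (i + 1) = 2 * (χ 1).re * ∑ i, z i ^ 2 := by
      have e1 : ∑ i, z i ^ 2 = ∑ i, z (i + 1) ^ 2 :=
        (Fintype.sum_equiv (Equiv.addRight (1 : ZMod k)) _ _ (fun i => rfl)).symm
      have e2 : ∑ i, z i * z (i + 1) = ∑ i, z (i + 1) * z (i + 1 + 1) :=
        (Fintype.sum_equiv (Equiv.addRight (1 : ZMod k)) _ _ (fun i => rfl)).symm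
      have e3 : ∑ i, z (i + 1) * (z (i + 1 + 1) + z i) = 2 * (χ 1).re * ∑ i, z (i + 1) ^ 2 := by
        rw [Finset.mul_sum]
        apply Finset.sum_congr rfl
        intro i _
        rw [hrec]; ring
      rw [e1, ← e3]
      simp only [mul_add, Finset.sum_add_distrib]
      rw [← e2, hshift]; ring
    rw [hS1, hS2, hS3, hS4]
    have hpos : 0 ≤ ∑ i, z i ^ 2 := Finset.sum_nonneg fun i _ => sq_nonneg _
    nlinarith

end H175A2
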