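import Pool.Agent.H175R.A2.Defs

set_option autoImplicit false
open scoped BigOperators Matrix

namespace H175A2

theorem t_HM : S_HM := by
  classical
  intro V _ _ F
  have h1 : (Pr V)ᴴ = Pr V := by
    ext u v
    simp [Pr, Matrix.conjTranspose_apply, Matrix.one_apply, eq_comm]
  have h2 : (Am F)ᴴ = Am F := by
    ext u v
    simp [Am, Matrix.conjTranspose_apply, F.adj_comm]
  unfold Matrix.IsHermitian MM
  rw [Matrix.conjTranspose_neg, Matrix.conjTranspose_mul, Matrix.conjTranspose_mul,
    Matrix.conjTranspose_add, Matrix.conjTranspose_one, h1, h2, ← Matrix.mul_assoc]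

end H175A2
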