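import Pool.Agent.H175R.A2.Defs

set_option autoImplicit false
open scoped BigOperators Matrix

namespace H175A2

theorem LOW_spec {V : Type} [Fintype V] [DecidableEq V] (M : Matrix V V ℝ) (h : M.IsHermitian)
    (l : ℝ) (hl : ∀ i, h.eigenvalues i ≤ l) (w : V → ℝ) :
    w ⬝ᵥ (M *ᵥ w) ≤ l * (w ⬝ᵥ w) := by
  obtain ⟨U, hU⟩ : ∃ U : Matrix V V ℝ, U = (h.eigenvectorUnitary : Matrix V V ℝ) := ⟨_, rfl⟩
  have hUU : U * star U = 1 := by
    rw [hU]
    exact Matrix.mem_unitaryGroup_iff.1 h.eigenvectorUnitary.2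
  have hM : M = U * Matrix.diagonal h.eigenvalues * star U := by
    have := h.spectral_theorem
    rw [Unitary.conjStarAlgAut_apply] at this
    rw [hU]
    exact this
  have hP : (Matrix.diagonal (fun i => l - h.eigenvalues i)).PosSemidef :=
    Matrix.posSemidef_diagonal_iff.2 (fun i => sub_nonneg.2 (hl i))
  have h1 := hP.mul_mul_conjTranspose_same U
  have e : U * Matrix.diagonal (fun i => l - h.eigenvalues i) * Uᴴ = l • (1 : Matrix V V ℝ) - M := by
    have e1 : Matrix.diagonal (fun i => l - h.eigenvalues i) =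
        l • (1 : Matrix V V ℝ) - Matrix.diagonal h.eigenvalues := by
      ext i j
      by_cases hij : i = j
      · subst hij; simp
      · simp [hij]
    have e2 : Uᴴ = star U := rfl
    rw [e2, e1, mul_sub, sub_mul, ← hM]
    congr 1
    rw [Matrix.mul_smul, mul_one, Matrix.smul_mul, hUU]
  rw [e] at h1
  have h2 := h1.dotProduct_mulVec_nonneg w
  rw [Matrix.sub_mulVec, Matrix.smul_mulVec, Matrix.one_mulVec, dotProduct_sub,
    dotProduct_smul] at h2
  simp only [star_trivial, smul_eq_mul] at h2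
  linarith

theorem LOW_Pr {V : Type} [Fintype V] [DecidableEq V] (w : V → ℝ) (hw : ∑ v, w v = 0) :
    Pr V *ᵥ w = w := by
  unfold Pr
  rw [Matrix.sub_mulVec, Matrix.one_mulVec]
  ext v
  simp only [Pi.sub_apply, Matrix.mulVec, dotProduct, Matrix.of_apply]
  rw [← Finset.mul_sum, hw]
  ring

theorem LOW_Pr' {V : Type} [Fintype V] [DecidableEq V] (w : V → ℝ) (hw : ∑ v, w v = 0) :
    w ᵥ* Pr V = w := by
  unfold Pr
  rw [Matrix.vecMul_sub, Matrix.vecMul_one]
  ext v
  simp only [Pi.sub_apply, Matrix.vecMul, dotProduct, Matrix.of_apply]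
  rw [← Finset.sum_mul, hw]
  ring

theorem LOW_MQ {V : Type} [Fintype V] [DecidableEq V] (F : SimpleGraph V) (w : V → ℝ)
    (hw : ∑ v, w v = 0) :
    w ⬝ᵥ (MM F *ᵥ w) = -(∑ v, w v ^ 2) - ∑ u, ∑ v, Am F u v * w u * w v := by
  unfold MM
  rw [Matrix.neg_mulVec, dotProduct_neg, ← Matrix.mulVec_mulVec, ← Matrix.mulVec_mulVec,
    LOW_Pr w hw, Matrix.dotProduct_mulVec, LOW_Pr' w hw, Matrix.add_mulVec, Matrix.one_mulVec,
    dotProduct_add]
  have e1 : w ⬝ᵥ w = ∑ v, w v ^ 2 := by
    simp only [dotProduct]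
    exact Finset.sum_congr rfl (fun v _ => by ring)
  have e2 : w ⬝ᵥ (Am F *ᵥ w) = ∑ u, ∑ v, Am F u v * w u * w v := by
    simp only [dotProduct, Matrix.mulVec]
    refine Finset.sum_congr rfl (fun u _ => ?_)
    rw [Finset.mul_sum]
    exact Finset.sum_congr rfl (fun v _ => by ring)
  rw [e1, e2]
  ring

theorem LOW_symm {V : Type} (F : SimpleGraph V) (u v : V) : Am F u v = Am F v u := by
  unfold Am
  simp only [Matrix.of_apply]
  by_cases h : F.Adj u v
  · rw [if_pos h, if_pos h.symm]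
  · rw [if_neg h, if_neg (fun h' => h h'.symm)]

theorem t_LOW : S_LOW := by
  intro V _ _ F h l hn hl
  have hn' : (0 : ℝ) < Fintype.card V := by exact_mod_cast hn
  set n : ℝ := (Fintype.card V : ℝ) with hndef
  set D := dbar F with hD
  set w : V → ℝ := fun v => dd F v - D with hwdef
  have hsum : ∑ v, dd F v = n * D := by
    rw [hD]; unfold dbar; rw [← hndef]; field_simp
  have hs2 : ∑ v, dd F v ^ 2 = n * s2 F := by
    unfold s2; rw [← hndef]; field_simp
  have hs3 : ∑ u, ∑ v, Am F u v * dd F u * dd F v = n * s3 F := by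
    unfold s3; rw [← hndef]; field_simp
  have hconst : ∀ c : ℝ, ∑ _v : V, c = n * c := by
    intro c
    rw [Finset.sum_const, Finset.card_univ, nsmul_eq_mul]
  have hw0 : ∑ v, w v = 0 := by
    simp only [hwdef]
    rw [Finset.sum_sub_distrib, hsum, hconst]
    ring
  have hw2 : ∑ v, w v ^ 2 = n * (s2 F - D ^ 2) := by
    have e : ∀ v, w v ^ 2 = dd F v ^ 2 - 2 * D * dd F v + D ^ 2 := by
      intro v; simp only [hwdef]; ring
    rw [Finset.sum_congr rfl (fun v _ => e v), Finset.sum_add_distrib, Finset.sum_sub_distrib,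
      ← Finset.mul_sum, hsum, hs2, hconst]
    ring
  have hA1 : ∑ u, ∑ v, Am F u v * dd F u = n * s2 F := by
    rw [← hs2]
    refine Finset.sum_congr rfl (fun u _ => ?_)
    rw [← Finset.sum_mul]
    have : ∑ v, Am F u v = dd F u := rfl
    rw [this]; ring
  have hA2 : ∑ u, ∑ v, Am F u v * dd F v = n * s2 F := by
    rw [← hA1, Finset.sum_comm]
    refine Finset.sum_congr rfl (fun u _ => Finset.sum_congr rfl (fun v _ => ?_))
    rw [LOW_symm F v u]
  have hA0 : ∑ u, ∑ v, Am F u v = n * D := hsum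
  have hAw : ∑ u, ∑ v, Am F u v * w u * w v = n * s3 F - 2 * D * (n * s2 F) + D ^ 2 * (n * D) := by
    have e : ∀ u v, Am F u v * w u * w v = Am F u v * dd F u * dd F v -
        D * (Am F u v * dd F u) - D * (Am F u v * dd F v) + D ^ 2 * Am F u v := by
      intro u v; simp only [hwdef]; ring
    have e2 : ∀ u, ∑ v, Am F u v * w u * w v = ∑ v, Am F u v * dd F u * dd F v -
        D * ∑ v, (Am F u v * dd F u) - D * ∑ v, (Am F u v * dd F v) + D ^ 2 * ∑ v, Am F u v := by
      intro u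
      rw [Finset.sum_congr rfl (fun v _ => e u v), Finset.sum_add_distrib,
        Finset.sum_sub_distrib, Finset.sum_sub_distrib, ← Finset.mul_sum, ← Finset.mul_sum,
        ← Finset.mul_sum]
    rw [Finset.sum_congr rfl (fun u _ => e2 u), Finset.sum_add_distrib,
      Finset.sum_sub_distrib, Finset.sum_sub_distrib, ← Finset.mul_sum, ← Finset.mul_sum,
      ← Finset.mul_sum, hs3, hA1, hA2, hA0]
    ring
  have h1 := LOW_spec (MM F) h l hl w
  rw [LOW_MQ F w hw0, hw2, hAw] at h1
  have h2 : w ⬝ᵥ w = n * (s2 F - D ^ 2) := by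
    rw [← hw2]
    simp only [dotProduct]
    exact Finset.sum_congr rfl (fun v _ => by ring)
  rw [h2] at h1
  have h3 : n * (D ^ 3 + (2 * D - (l + 1)) * (s2 F - D ^ 2)) ≤ n * s3 F := by nlinarith
  exact le_of_mul_le_mul_left h3 hn'

end H175A2
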