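import Pool.Agent.H175R.A2.Defs

set_option autoImplicit false
open scoped BigOperators Matrix

namespace H175A2

theorem MQ_pr {V : Type} [Fintype V] [DecidableEq V] (w : V → ℝ) (hw : ∑ v, w v = 0) :
    Pr V *ᵥ w = w := by
  unfold Pr
  rw [Matrix.sub_mulVec, Matrix.one_mulVec]
  have h1 : (Matrix.of fun _ _ : V => 1 / (Fintype.card V : ℝ)) *ᵥ w = 0 := by
    funext u
    simp only [Matrix.mulVec, dotProduct, Matrix.of_apply, Pi.zero_apply]
    rw [← Finset.mul_sum, hw, mul_zero]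
  rw [h1, sub_zero]

theorem MQ_pr' {V : Type} [Fintype V] [DecidableEq V] (w : V → ℝ) (hw : ∑ v, w v = 0) :
    w ᵥ* Pr V = w := by
  unfold Pr
  rw [Matrix.vecMul_sub, Matrix.vecMul_one]
  have h1 : w ᵥ* (Matrix.of fun _ _ : V => 1 / (Fintype.card V : ℝ)) = 0 := by
    funext u
    simp only [Matrix.vecMul, dotProduct, Matrix.of_apply, Pi.zero_apply]
    rw [← Finset.sum_mul, hw, zero_mul]
  rw [h1, sub_zero]

theorem t_MQ : S_MQ := by
  intro V _ _ F w hw
  unfold MM
  rw [Matrix.neg_mulVec, dotProduct_neg, ← Matrix.mulVec_mulVec, ← Matrix.mulVec_mulVec,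
    MQ_pr w hw, Matrix.dotProduct_mulVec, MQ_pr' w hw, Matrix.add_mulVec, Matrix.one_mulVec,
    dotProduct_add]
  have h1 : w ⬝ᵥ w = ∑ v, w v ^ 2 := by
    unfold dotProduct
    refine Finset.sum_congr rfl fun v _ => ?_
    ring
  have h2 : w ⬝ᵥ (Am F *ᵥ w) = ∑ u, ∑ v, Am F u v * w u * w v := by
    unfold dotProduct Matrix.mulVec dotProduct
    refine Finset.sum_congr rfl fun u _ => ?_
    rw [Finset.mul_sum]
    refine Finset.sum_congr rfl fun v _ => ?_
    ring
  rw [h1, h2]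
  ring

end H175A2
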