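import Pool.Agent.H175R.A2.Defs

set_option autoImplicit false

namespace H175A2

lemma NUM_aux (m d σ a g : ℝ) (hm : 0 < m) (hσ : 0 ≤ σ) (ha0 : 0 ≤ a) (hg : 1 / 4 < g)
    (hgd : g ≤ d) (hd : 3 / 2 < d) (e1 : m * (d - a) = 2 * σ + 2 * d * (d - 1)) :
    0 ≤ m * (a ^ 2 - a) + g * ((d - 1) * (2 * d - g + 2 * a) + 3 * σ) := by
  rcases le_or_gt 1 a with h1 | h1
  · have h2 : 0 ≤ a ^ 2 - a := by nlinarith
    have h3 : 0 ≤ (d - 1) * (2 * d - g + 2 * a) := mul_nonneg (by linarith) (by linarith)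
    exact add_nonneg (mul_nonneg hm.le h2) (mul_nonneg (by linarith) (by linarith))
  · have hda : 0 < d - a := by linarith
    have q : 1 / 4 * (3 / 2 - a) ≤ g * (d - a) :=
      mul_le_mul hg.le (by linarith) (by linarith) (by linarith)
    have p1 : 0 ≤ 3 * (g * (d - a)) - 2 * a * (1 - a) := by
      nlinarith [sq_nonneg (a - 11 / 16)]
    have r1 : 1 / 4 * (2 * d - 1 / 4 + 2 * a) ≤ g * (2 * d - g + 2 * a) := by
      have := mul_nonneg (sub_nonneg.2 hg.le) (by linarith : 0 ≤ 2 * d + 2 * a - g - 1 / 4)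
      nlinarith
    have r2 : 2 * a * (1 - a) * d ≤ 1 / 4 * (2 * d - 1 / 4 + 2 * a) * (d - a) := by
      have hu : 0 ≤ d - 3 / 2 := by linarith
      have f1 : 0 ≤ (1 / 4) * (23 / 4) - 2 * a * (1 - a) := by nlinarith [sq_nonneg (a - 1 / 2)]
      have f2 := mul_nonneg hu f1
      have f0 : 0 ≤ 33 / 32 - 47 / 16 * a + 5 / 2 * a ^ 2 := by
        nlinarith [sq_nonneg (a - 47 / 80)]
      nlinarith [mul_nonneg hu hu]
    have p2 : 0 ≤ g * (2 * d - g + 2 * a) * (d - a) - 2 * a * (1 - a) * d := by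
      have := mul_le_mul_of_nonneg_right r1 hda.le
      linarith
    have hX : (m * (a ^ 2 - a) + g * ((d - 1) * (2 * d - g + 2 * a) + 3 * σ)) * (d - a) =
        σ * (3 * (g * (d - a)) - 2 * a * (1 - a)) +
          (d - 1) * (g * (2 * d - g + 2 * a) * (d - a) - 2 * a * (1 - a) * d) := by
      linear_combination (a ^ 2 - a) * e1
    have hX0 : 0 ≤ (m * (a ^ 2 - a) + g * ((d - 1) * (2 * d - g + 2 * a) + 3 * σ)) * (d - a) := by
      rw [hX]
      exact add_nonneg (mul_nonneg hσ p1) (mul_nonneg (by linarith) p2)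
    by_contra hneg
    push Not at hneg
    have := mul_neg_of_neg_of_pos hneg hda
    linarith

theorem t_NUM : S_NUM := by
  intro n d σ x l S hn hσ h2 hl hlS hx H
  by_contra hcon
  push Not at hcon
  have hm : 0 < n - 2 := by linarith
  obtain ⟨a, ha⟩ : ∃ a, a = (n * d - 2 * d ^ 2 - 2 * σ) / (n - 2) := ⟨_, rfl⟩
  have ham : a * (n - 2) = n * d - 2 * d ^ 2 - 2 * σ := by
    rw [ha, div_mul_cancel₀ _ hm.ne']
  have ha0 : 0 ≤ a := by
    rw [ha]
    exact div_nonneg (by linarith) hm.le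
  have hg : 1 / 4 < d - l - 1 := by linarith
  have hd : 3 / 2 < d := by linarith
  have H1 := H (1 + a) (by linarith)
  have hX := NUM_aux (n - 2) d σ a (d - l - 1) hm hσ ha0 hg (by linarith) hd (by
    linear_combination -ham)
  have key : (l + (1 + a)) ^ 2 * (d - 1) + ((n - 2) * (a ^ 2 - a) +
      (d - l - 1) * ((d - 1) * (2 * d - (d - l - 1) + 2 * a) + 3 * σ)) ≤
      (l + (1 + a)) ^ 2 * S := by
    refine le_trans ?_ H1
    linear_combination 3 * hx + (2 * a - 1) * ham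
  have hpos : 0 < (l + (1 + a)) ^ 2 := by
    have : 0 < l + (1 + a) := by linarith
    positivity
  have := mul_lt_mul_of_pos_left hcon hpos
  linarith

end H175A2
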