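import Pool.Agent.H175R.A2.Defs

set_option autoImplicit false
open scoped BigOperators Matrix

namespace H175A2

def ODD_Q {V : Type} (F : SimpleGraph V) (m : ℕ) : Prop :=
  Odd m ∧ ∃ w : ℕ → V, w m = w 0 ∧ ∀ t < m, F.Adj (w t) (w (t + 1))

theorem ODD_exists {V : Type} (F : SimpleGraph V) (h : ¬ F.Colorable 2) : ∃ m, ODD_Q F m := by
  rw [SimpleGraph.two_colorable_iff_forall_loop_even] at h
  push Not at h
  obtain ⟨u, p, hp⟩ := h
  refine ⟨p.length, by simpa using hp, fun t => p.getVert t, ?_, ?_⟩
  · simp
  · intro t ht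
    exact p.adj_getVert_succ ht

theorem ODD_inj {V : Type} (F : SimpleGraph V) (k : ℕ) (hmin : ∀ m < k, ¬ ODD_Q F m)
    (hk : Odd k) (w : ℕ → V) (hw0 : w k = w 0) (hw : ∀ t < k, F.Adj (w t) (w (t + 1)))
    (s t : ℕ) (hst : s < t) (ht : t < k) : w s ≠ w t := by
  intro he
  rcases Nat.even_or_odd (t - s) with hpar | hpar
  · refine hmin (k - (t - s)) (by omega) ⟨?_, fun r => if r ≤ s then w r else w (r + (t - s)),
      ?_, ?_⟩
    · exact Nat.Odd.sub_even (by omega) hk hpar
    · simp only [if_neg (show ¬ (k - (t - s) ≤ s) by omega), if_pos (Nat.zero_le s)]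
      rw [show k - (t - s) + (t - s) = k by omega, hw0]
    · intro r hr
      rcases lt_trichotomy r s with h | h | h
      · simp only [if_pos (show r ≤ s by omega), if_pos (show r + 1 ≤ s by omega)]
        exact hw r (by omega)
      · subst h
        simp only [if_pos (le_refl r), if_neg (show ¬ (r + 1 ≤ r) by omega)]
        rw [he, show r + 1 + (t - r) = t + 1 by omega]
        exact hw t ht
      · simp only [if_neg (show ¬ (r ≤ s) by omega), if_neg (show ¬ (r + 1 ≤ s) by omega)]
        rw [show r + 1 + (t - s) = r + (t - s) + 1 by omega]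
        exact hw _ (by omega)
  · refine hmin (t - s) (by omega) ⟨hpar, fun r => w (s + r), ?_, ?_⟩
    · simp only
      rw [show s + (t - s) = t by omega, ← he, Nat.add_zero]
    · intro r hr
      exact hw (s + r) (by omega)

theorem ODD_chord {V : Type} (F : SimpleGraph V) (k : ℕ) (hmin : ∀ m < k, ¬ ODD_Q F m)
    (hk : Odd k) (w : ℕ → V) (hw0 : w k = w 0) (hw : ∀ t < k, F.Adj (w t) (w (t + 1)))
    (s t : ℕ) (hst : s < t) (ht : t < k) (ha : F.Adj (w s) (w t)) :
    t = s + 1 ∨ (s = 0 ∧ t = k - 1) := by
  by_contra hcon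
  push Not at hcon
  obtain ⟨h1, h2⟩ := hcon
  rcases Nat.even_or_odd (t - s) with hpar | hpar
  · refine hmin (t - s + 1) (by omega) ⟨hpar.add_one, fun r => if r ≤ t - s then w (s + r)
      else w s, ?_, ?_⟩
    · simp only [if_neg (show ¬ (t - s + 1 ≤ t - s) by omega), if_pos (Nat.zero_le _),
        Nat.add_zero]
    · intro r hr
      rcases lt_or_eq_of_le (show r ≤ t - s by omega) with h | h
      · simp only [if_pos (show r ≤ t - s by omega), if_pos (show r + 1 ≤ t - s by omega)]
        exact hw (s + r) (by omega)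
      · simp only [if_pos (show r ≤ t - s by omega), if_neg (show ¬ (r + 1 ≤ t - s) by omega)]
        rw [h, show s + (t - s) = t by omega]
        exact ha.symm
  · refine hmin (k - (t - s) + 1) (by omega) ⟨?_, fun r => if r ≤ s then w r
      else w (r + (t - s) - 1), ?_, ?_⟩
    · exact (Nat.Odd.sub_odd hk hpar).add_one
    · simp only [if_neg (show ¬ (k - (t - s) + 1 ≤ s) by omega), if_pos (Nat.zero_le s)]
      rw [show k - (t - s) + 1 + (t - s) - 1 = k by omega, hw0]
    · intro r hr
      rcases lt_trichotomy r s with h | h | h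
      · simp only [if_pos (show r ≤ s by omega), if_pos (show r + 1 ≤ s by omega)]
        exact hw r (by omega)
      · subst h
        simp only [if_pos (le_refl r), if_neg (show ¬ (r + 1 ≤ r) by omega)]
        rw [show r + 1 + (t - r) - 1 = t by omega]
        exact ha
      · simp only [if_neg (show ¬ (r ≤ s) by omega), if_neg (show ¬ (r + 1 ≤ s) by omega)]
        rw [show r + 1 + (t - s) - 1 = r + (t - s) - 1 + 1 by omega]
        exact hw _ (by omega)

theorem t_ODD : S_ODD := by
  classical
  intro V _ F hcol hfree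
  have hex := ODD_exists F hcol
  set k := Nat.find hex with hkdef
  obtain ⟨hk, w, hw0, hw⟩ := Nat.find_spec hex
  rw [← hkdef] at hk hw0 hw
  have hmin : ∀ m < k, ¬ ODD_Q F m := fun m hm => Nat.find_min hex hm
  have hk0 : 0 < k := hk.pos
  have hk1 : k ≠ 1 := by
    intro h
    have := hw 0 (by omega)
    rw [h] at hw0
    rw [zero_add, hw0] at this
    exact F.loopless.irrefl _ this
  have hk3 : k ≠ 3 := by
    intro h
    have a0 := hw 0 (by omega)
    have a1 := hw 1 (by omega)
    have a2 := hw 2 (by omega)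
    rw [h] at hw0
    norm_num at a0 a1 a2
    rw [hw0] at a2
    refine hfree {w 0, w 1, w 2} ?_
    rw [SimpleGraph.is3Clique_triple_iff]
    exact ⟨a0, a2.symm, a1⟩
  have hk5 : 5 ≤ k := by
    obtain ⟨r, hr⟩ := hk
    omega
  haveI : NeZero k := ⟨by omega⟩
  haveI : Fact (1 < k) := ⟨by omega⟩
  have hval : ∀ i : ZMod k, i.val < k := fun i => ZMod.val_lt i
  have hval1 : ∀ i : ZMod k, (i.val + 1 < k ∧ (i + 1).val = i.val + 1) ∨
      (i.val = k - 1 ∧ (i + 1).val = 0) := by
    intro i
    have h1 := ZMod.val_add i 1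
    rw [ZMod.val_one] at h1
    rcases lt_or_ge (i.val + 1) k with h | h
    · left
      rw [Nat.mod_eq_of_lt h] at h1
      exact ⟨h, h1⟩
    · right
      have h2 := hval i
      have h3 : i.val + 1 = k := by omega
      rw [h3, Nat.mod_self] at h1
      exact ⟨by omega, h1⟩
  have hnext : ∀ i : ZMod k, F.Adj (w i.val) (w (i + 1).val) := by
    intro i
    rcases hval1 i with ⟨h1, h2⟩ | ⟨h1, h2⟩
    · rw [h2]; exact hw _ (by omega)
    · rw [h2, ← hw0, h1]
      have := hw (k - 1) (by omega)
      rwa [show k - 1 + 1 = k by omega] at this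
  have hlt : ∀ i j : ZMod k, i.val < j.val → F.Adj (w i.val) (w j.val) →
      (j = i + 1 ∨ i = j + 1) := by
    intro i j hij ha
    rcases ODD_chord F k hmin hk w hw0 hw _ _ hij (hval j) ha with h | ⟨h1, h2⟩
    · left
      apply ZMod.val_injective k
      rcases hval1 i with ⟨h3, h4⟩ | ⟨h3, h4⟩
      · rw [h4, h]
      · have := hval j
        omega
    · right
      apply ZMod.val_injective k
      rcases hval1 j with ⟨h3, h4⟩ | ⟨h3, h4⟩
      · omega
      · rw [h4, h1]
  refine ⟨k, fun i => w i.val, hk5, hk, ?_, ?_⟩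
  · intro i j hij
    apply ZMod.val_injective k
    rcases lt_trichotomy i.val j.val with h | h | h
    · exact absurd hij (ODD_inj F k hmin hk w hw0 hw _ _ h (hval j))
    · exact h
    · exact absurd hij.symm (ODD_inj F k hmin hk w hw0 hw _ _ h (hval i))
  · intro i j
    constructor
    · intro ha
      rcases lt_trichotomy i.val j.val with h | h | h
      · exact hlt i j h ha
      · exfalso
        simp only [h] at ha
        exact F.loopless.irrefl _ ha
      · exact (hlt j i h ha.symm).symm
    · rintro (h | h)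
      · rw [h]; exact hnext i
      · rw [h]; exact (hnext j).symm

end H175A2
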