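import Pool.Agent.H175R.A2.Defs

set_option autoImplicit false
open scoped BigOperators Matrix

namespace H175A2

theorem POL_term (x l c : ℝ) (hl : 0 ≤ l) (hc : 0 ≤ c) (hx : x ≤ l) :
    x * x * x + 2 * c * (x * x) + c ^ 2 * x ≤ (l + c) ^ 2 * max x 0 := by
  have e : x * x * x + 2 * c * (x * x) + c ^ 2 * x = (x + c) ^ 2 * x := by ring
  rw [e]
  by_cases h0 : 0 ≤ x
  · rw [max_eq_left h0]
    have h1 : (x + c) ^ 2 ≤ (l + c) ^ 2 := pow_le_pow_left₀ (by linarith) (by linarith) 2
    exact mul_le_mul_of_nonneg_right h1 h0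
  · push Not at h0
    rw [max_eq_right h0.le, mul_zero]
    have h1 : 0 ≤ (x + c) ^ 2 := sq_nonneg _
    nlinarith

theorem POL_trace {V : Type} [Fintype V] [DecidableEq V] (U : Matrix.unitaryGroup V ℝ)
    (X : Matrix V V ℝ) : (Unitary.conjStarAlgAut ℝ (Matrix V V ℝ) U X).trace = X.trace := by
  rw [Unitary.conjStarAlgAut_apply, Matrix.trace_mul_comm, ← mul_assoc]
  rw [Unitary.coe_star_mul_self, one_mul]

theorem t_POL : S_POL := by
  intro V _ _ M h l c hl hc hev
  set D : Matrix V V ℝ := Matrix.diagonal (h.eigenvalues) with hD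
  have hM : M = Unitary.conjStarAlgAut ℝ (Matrix V V ℝ) h.eigenvectorUnitary D :=
    h.spectral_theorem
  have h2 : M * M = Unitary.conjStarAlgAut ℝ (Matrix V V ℝ) h.eigenvectorUnitary (D * D) := by
    rw [map_mul, ← hM]
  have h3 : M * M * M
      = Unitary.conjStarAlgAut ℝ (Matrix V V ℝ) h.eigenvectorUnitary (D * D * D) := by
    rw [map_mul, map_mul, ← hM]
  have t1 : M.trace = ∑ i, h.eigenvalues i := by
    conv_lhs => rw [hM]
    rw [POL_trace, hD, Matrix.trace_diagonal]
  have t2 : (M * M).trace = ∑ i, h.eigenvalues i * h.eigenvalues i := by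
    rw [h2, POL_trace, hD, Matrix.diagonal_mul_diagonal, Matrix.trace_diagonal]
  have t3 : (M * M * M).trace
      = ∑ i, h.eigenvalues i * h.eigenvalues i * h.eigenvalues i := by
    rw [h3, POL_trace, hD, Matrix.diagonal_mul_diagonal, Matrix.diagonal_mul_diagonal,
      Matrix.trace_diagonal]
  rw [t1, t2, t3]
  unfold ps
  rw [Finset.mul_sum, Finset.mul_sum, Finset.mul_sum, ← Finset.sum_add_distrib,
    ← Finset.sum_add_distrib]
  exact Finset.sum_le_sum fun i _ => POL_term _ l c hl hc (hev i)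

end H175A2
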