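import Pool.Agent.H175R.A2.Defs

set_option autoImplicit false
open scoped BigOperators Matrix

namespace H175A2

theorem RED_ps {V : Type} [Fintype V] [DecidableEq V] (M X : Matrix V V ℝ) (h : M.IsHermitian)
    (hX : X.PosSemidef) (hXM : (X - M).PosSemidef) : ps M h ≤ X.trace := by
  obtain ⟨U, hU⟩ : ∃ U : Matrix V V ℝ, U = (h.eigenvectorUnitary : Matrix V V ℝ) := ⟨_, rfl⟩
  have hUU : U * Uᴴ = 1 := by
    rw [hU]; exact (Matrix.mem_unitaryGroup_iff).1 h.eigenvectorUnitary.2
  have hD : Uᴴ * M * U = Matrix.diagonal h.eigenvalues := by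
    have := h.conjStarAlgAut_star_eigenvectorUnitary
    rw [Unitary.conjStarAlgAut_apply] at this
    rw [hU]
    have h2 : star (h.eigenvectorUnitary : Matrix V V ℝ) * M * (h.eigenvectorUnitary : Matrix V V ℝ)
        = Matrix.diagonal h.eigenvalues := by
      simpa using this
    exact h2
  have htr : (Uᴴ * X * U).trace = X.trace := by
    rw [Matrix.trace_mul_comm, ← Matrix.mul_assoc, hUU, Matrix.one_mul]
  have h1 : ∀ i, 0 ≤ (Uᴴ * X * U) i i := fun i => (hX.conjTranspose_mul_mul_same U).diag_nonneg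
  have h2 : ∀ i, h.eigenvalues i ≤ (Uᴴ * X * U) i i := by
    intro i
    have h3 := (hXM.conjTranspose_mul_mul_same U).diag_nonneg (i := i)
    have e : Uᴴ * (X - M) * U = Uᴴ * X * U - Uᴴ * M * U := by
      rw [Matrix.mul_sub, Matrix.sub_mul]
    rw [e, hD, Matrix.sub_apply, Matrix.diagonal_apply_eq] at h3
    linarith
  unfold ps
  rw [← htr]
  exact Finset.sum_le_sum fun i _ => max_le (h2 i) (h1 i)

theorem t_RED (_h1 : S_HM) : S_RED := by
  intro V _ _ F h P hn hP hPA
  classical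
  have hn' : (0 : ℝ) < (Fintype.card V : ℝ) := by exact_mod_cast hn
  obtain ⟨J, hJ⟩ : ∃ J : Matrix V V ℝ, J = Matrix.of fun _ _ => 1 / (Fintype.card V : ℝ) :=
    ⟨_, rfl⟩
  have hJa : ∀ u v, J u v = 1 / (Fintype.card V : ℝ) := by intro u v; rw [hJ]; rfl
  have hJJ : J * J = J := by
    ext u v
    rw [Matrix.mul_apply]
    simp only [hJa]
    rw [Finset.sum_const, Finset.card_univ, nsmul_eq_mul]
    field_simp
  have hPr : Pr V = 1 - J := by rw [hJ]; rfl
  have hJT : Jᴴ = J := by
    ext u v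
    rw [Matrix.conjTranspose_apply, hJa, hJa]
    simp
  have hPrT : (Pr V)ᴴ = Pr V := by
    rw [hPr, Matrix.conjTranspose_sub, Matrix.conjTranspose_one, hJT]
  have hPrJ : Pr V * J = 0 := by rw [hPr, Matrix.sub_mul, Matrix.one_mul, hJJ, sub_self]
  have hPrPr : Pr V * Pr V = Pr V := by
    conv_lhs => rw [hPr, Matrix.mul_sub, Matrix.mul_one, ← hPr, hPrJ, sub_zero]
  have hAmc : Am Fᶜ = (Fintype.card V : ℝ) • J - 1 - Am F := by
    ext u v
    rw [Matrix.sub_apply, Matrix.sub_apply, Matrix.smul_apply, hJa, smul_eq_mul,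
      mul_one_div_cancel hn'.ne']
    unfold Am
    rw [Matrix.of_apply, Matrix.of_apply]
    by_cases huv : u = v
    · subst huv
      simp
    · rw [Matrix.one_apply_ne huv]
      by_cases ha : F.Adj u v
      · rw [if_neg (by rw [SimpleGraph.compl_adj]; exact fun hc => hc.2 ha), if_pos ha]
        norm_num
      · rw [if_pos (by rw [SimpleGraph.compl_adj]; exact ⟨huv, ha⟩), if_neg ha]
        norm_num
  have hMM : MM F = Pr V * Am Fᶜ * Pr V := by
    have e1 : Pr V * Am Fᶜ = -(Pr V * (1 + Am F)) := by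
      rw [hAmc, sub_sub, Matrix.mul_sub, Matrix.mul_smul, hPrJ, smul_zero, zero_sub]
    rw [e1, Matrix.neg_mul]
    rfl
  have hX : (Pr V * P * Pr V).PosSemidef := by
    have h3 := hP.conjTranspose_mul_mul_same (Pr V)
    rwa [hPrT] at h3
  have hXM : (Pr V * P * Pr V - MM F).PosSemidef := by
    have h3 := hPA.conjTranspose_mul_mul_same (Pr V)
    rw [hPrT, Matrix.mul_sub, Matrix.sub_mul] at h3
    rwa [hMM]
  have hps := RED_ps (MM F) _ h hX hXM
  have htr : (Pr V * P * Pr V).trace = P.trace - (J * P).trace := by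
    rw [Matrix.trace_mul_comm, ← Matrix.mul_assoc, hPrPr, hPr, Matrix.sub_mul, Matrix.one_mul,
      Matrix.trace_sub]
  have hJP : (J * P).trace = (∑ u, ∑ v, P u v) / (Fintype.card V : ℝ) := by
    unfold Matrix.trace
    simp only [Matrix.diag_apply, Matrix.mul_apply, hJa]
    rw [Finset.sum_comm, Finset.sum_div]
    refine Finset.sum_congr rfl fun u _ => ?_
    rw [Finset.sum_div]
    refine Finset.sum_congr rfl fun v _ => ?_
    ring
  have hquad : 0 ≤ ∑ u, ∑ v, (P u v - Am Fᶜ u v) := by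
    have h3 := hPA.dotProduct_mulVec_nonneg (fun _ => (1 : ℝ))
    simpa [dotProduct, Matrix.mulVec, Matrix.sub_apply] using h3
  have hAsum : ∑ u, ∑ v, Am Fᶜ u v = (Fintype.card V : ℝ) * ((Fintype.card V : ℝ) - 1)
      - ∑ v, dd F v := by
    have e2 : ∀ u, ∑ v, Am Fᶜ u v = ((Fintype.card V : ℝ) - 1) - dd F u := by
      intro u
      have e3 : ∀ v, Am Fᶜ u v = 1 - (1 : Matrix V V ℝ) u v - Am F u v := by
        intro v
        rw [hAmc, Matrix.sub_apply, Matrix.sub_apply, Matrix.smul_apply, hJa, smul_eq_mul,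
          mul_one_div_cancel hn'.ne']
      rw [Finset.sum_congr rfl fun v _ => e3 v, Finset.sum_sub_distrib, Finset.sum_sub_distrib]
      have e4 : ∑ v, (1 : Matrix V V ℝ) u v = 1 := by
        simp [Matrix.one_apply]
      rw [e4]
      simp only [Finset.sum_const, Finset.card_univ, nsmul_eq_mul, mul_one]
      rfl
    rw [Finset.sum_congr rfl fun u _ => e2 u, Finset.sum_sub_distrib, Finset.sum_const,
      Finset.card_univ, nsmul_eq_mul]
  have hfin : (Fintype.card V : ℝ) - 1 - dbar F ≤ (J * P).trace := by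
    rw [hJP]
    unfold dbar
    have h5 : ∑ u, ∑ v, (P u v - Am Fᶜ u v) = ∑ u, ∑ v, P u v - ∑ u, ∑ v, Am Fᶜ u v := by
      simp only [Finset.sum_sub_distrib]
    rw [h5, hAsum] at hquad
    rw [le_div_iff₀ hn', sub_mul, div_mul_cancel₀ _ hn'.ne']
    linarith
  rw [htr] at hps
  linarith

end H175A2
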