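import Pool.Agent.H175R.A2.Defs

set_option autoImplicit false
open scoped BigOperators Matrix

namespace H175A2

theorem S2_symm {V : Type} (F : SimpleGraph V) (u v : V) : Am F u v = Am F v u := by
  classical
  simp only [Am, Matrix.of_apply, F.adj_comm u v]

theorem S2_le {V : Type} [DecidableEq V] (F : SimpleGraph V) (hF : F.CliqueFree 3) {u v : V}
    (h : F.Adj u v) (w : V) : Am F u w + Am F v w ≤ 1 := by
  classical
  simp only [Am, Matrix.of_apply]
  by_cases h1 : F.Adj u w
  · by_cases h2 : F.Adj v w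
    · exact absurd (SimpleGraph.is3Clique_triple_iff.2 ⟨h, h1, h2⟩) (hF {u, v, w})
    · simp [h1, h2]
  · by_cases h2 : F.Adj v w
    · simp [h1, h2]
    · simp [h1, h2]

theorem S2_edge {V : Type} [Fintype V] [DecidableEq V] (F : SimpleGraph V) (hF : F.CliqueFree 3)
    (u v : V) : Am F u v * (dd F u + dd F v) ≤ Am F u v * (Fintype.card V : ℝ) := by
  classical
  by_cases h : F.Adj u v
  · have h1 : Am F u v = 1 := by simp [Am, h]
    rw [h1, one_mul, one_mul, dd, dd, ← Finset.sum_add_distrib]
    calc ∑ w, (Am F u w + Am F v w) ≤ ∑ _w : V, (1 : ℝ) :=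
          Finset.sum_le_sum fun w _ => S2_le F hF h w
      _ = (Fintype.card V : ℝ) := by simp
  · have h1 : Am F u v = 0 := by simp [Am, h]
    rw [h1, zero_mul, zero_mul]

theorem t_S2 : S_S2 := by
  classical
  intro V _ _ F hF hV
  have hn : (0 : ℝ) < (Fintype.card V : ℝ) := by exact_mod_cast hV
  constructor
  · have e1 : ∑ v, dd F v ^ 2 = ∑ u, ∑ v, Am F u v * dd F u := by
      apply Finset.sum_congr rfl
      intro u _
      rw [← Finset.sum_mul]
      change dd F u ^ 2 = dd F u * dd F u
      ring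
    have e2 : ∑ v, dd F v ^ 2 = ∑ u, ∑ v, Am F u v * dd F v := by
      rw [e1, Finset.sum_comm]
      apply Finset.sum_congr rfl
      intro u _
      apply Finset.sum_congr rfl
      intro v _
      rw [S2_symm]
    have e3 : 2 * ∑ v, dd F v ^ 2 = ∑ u, ∑ v, Am F u v * (dd F u + dd F v) := by
      have : ∑ u, ∑ v, Am F u v * (dd F u + dd F v) =
          ∑ u, ∑ v, Am F u v * dd F u + ∑ u, ∑ v, Am F u v * dd F v := by
        simp only [mul_add, Finset.sum_add_distrib]
      rw [this, ← e1, ← e2]
      ring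
    have e4 : 2 * ∑ v, dd F v ^ 2 ≤ (∑ v, dd F v) * (Fintype.card V : ℝ) := by
      rw [e3, Finset.sum_mul]
      apply Finset.sum_le_sum
      intro u _
      rw [dd, Finset.sum_mul]
      exact Finset.sum_le_sum fun v _ => S2_edge F hF u v
    unfold s2 dbar
    rw [mul_div_assoc', mul_div_assoc', div_le_div_iff_of_pos_right hn]
    linarith
  · have h1 : (∑ v, dd F v) ^ 2 ≤ (Fintype.card V : ℝ) * ∑ v, dd F v ^ 2 := by
      have := sq_sum_le_card_mul_sum_sq (s := (Finset.univ : Finset V)) (f := fun v => dd F v)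
      simpa using this
    unfold s2 dbar
    rw [div_pow, div_le_div_iff₀ (by positivity) hn]
    nlinarith [mul_le_mul_of_nonneg_right h1 hn.le]

end H175A2
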