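import Pool.Agent.H175R.A2.Defs

set_option autoImplicit false
open scoped BigOperators Matrix

namespace H175A2

section
variable {V : Type} [Fintype V] [DecidableEq V]

/-- the averaging matrix -/
noncomputable def TRC_J (V : Type) [Fintype V] : Matrix V V ℝ :=
  Matrix.of fun _ _ => 1 / (Fintype.card V : ℝ)

theorem TRC_apply (i j : V) : TRC_J V i j = 1 / (Fintype.card V : ℝ) := rfl

theorem TRC_trJ (M : Matrix V V ℝ) :
    (M * TRC_J V).trace = (∑ i, ∑ j, M i j) / (Fintype.card V : ℝ) := by
  simp only [Matrix.trace, Matrix.diag_apply, Matrix.mul_apply, TRC_apply]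
  rw [Finset.sum_div]
  refine Finset.sum_congr rfl fun i _ => ?_
  rw [Finset.sum_div]
  refine Finset.sum_congr rfl fun j _ => ?_
  ring

theorem TRC_sum (M N : Matrix V V ℝ) :
    ∑ i, ∑ j, (M * N) i j = ∑ k, (∑ i, M i k) * (∑ j, N k j) := by
  simp only [Matrix.mul_apply]
  calc ∑ i, ∑ j, ∑ k, M i k * N k j = ∑ i, ∑ k, ∑ j, M i k * N k j :=
        Finset.sum_congr rfl fun i _ => Finset.sum_comm
    _ = ∑ k, ∑ i, ∑ j, M i k * N k j := Finset.sum_comm
    _ = _ := Finset.sum_congr rfl fun k _ => by rw [Finset.sum_mul_sum]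

theorem TRC_symm (F : SimpleGraph V) (i j : V) : Am F i j = Am F j i := by
  unfold Am
  simp only [Matrix.of_apply]
  rw [F.adj_comm]

theorem TRC_JJ (h : (Fintype.card V : ℝ) ≠ 0) : TRC_J V * TRC_J V = TRC_J V := by
  ext i j
  rw [Matrix.mul_apply]
  simp only [TRC_apply]
  rw [Finset.sum_const, Finset.card_univ, nsmul_eq_mul]
  field_simp

theorem TRC_col (F : SimpleGraph V) (k : V) : ∑ i, Am F i k = dd F k := by
  unfold dd
  exact Finset.sum_congr rfl fun i _ => TRC_symm F i k

theorem TRC_JAJ (F : SimpleGraph V) : TRC_J V * Am F * TRC_J V = dbar F • TRC_J V := by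
  ext i j
  rw [Matrix.mul_apply, Matrix.smul_apply, smul_eq_mul]
  simp only [Matrix.mul_apply, TRC_apply]
  unfold dbar
  rw [← Finset.sum_mul]
  congr 1
  rw [Finset.sum_div]
  refine Finset.sum_congr rfl fun k _ => ?_
  rw [← Finset.mul_sum, TRC_col]
  ring

theorem TRC_A1 (F : SimpleGraph V) : (Am F * TRC_J V).trace = dbar F := by
  rw [TRC_trJ]
  rfl

theorem TRC_A2 (F : SimpleGraph V) : (Am F * Am F * TRC_J V).trace = s2 F := by
  rw [TRC_trJ, TRC_sum]
  unfold s2
  congr 1
  refine Finset.sum_congr rfl fun k _ => ?_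
  rw [TRC_col, pow_two]
  rfl

theorem TRC_A3 (F : SimpleGraph V) : (Am F * Am F * Am F * TRC_J V).trace = s3 F := by
  rw [TRC_trJ, TRC_sum]
  unfold s3
  congr 1
  rw [Finset.sum_comm]
  refine Finset.sum_congr rfl fun k _ => ?_
  have h1 : ∑ i, (Am F * Am F) i k = ∑ l, dd F l * Am F l k := by
    simp only [Matrix.mul_apply]
    rw [Finset.sum_comm]
    refine Finset.sum_congr rfl fun l _ => ?_
    rw [← Finset.sum_mul, TRC_col]
  rw [h1, Finset.sum_mul]
  refine Finset.sum_congr rfl fun l _ => ?_
  show dd F l * Am F l k * dd F k = _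
  ring

theorem TRC_AA (F : SimpleGraph V) (h : (Fintype.card V : ℝ) ≠ 0) :
    (Am F * Am F).trace = (Fintype.card V : ℝ) * dbar F := by
  unfold dbar
  rw [mul_div_cancel₀ _ h]
  simp only [Matrix.trace, Matrix.diag_apply, Matrix.mul_apply]
  refine Finset.sum_congr rfl fun i _ => ?_
  unfold dd
  refine Finset.sum_congr rfl fun k _ => ?_
  rw [TRC_symm F k i]
  unfold Am
  simp only [Matrix.of_apply]
  split_ifs <;> norm_num

theorem TRC_A (F : SimpleGraph V) : (Am F).trace = 0 := by
  simp [Matrix.trace, Am]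

theorem TRC_AAA (F : SimpleGraph V) (hF : F.CliqueFree 3) : (Am F * Am F * Am F).trace = 0 := by
  simp only [Matrix.trace, Matrix.diag_apply, Matrix.mul_apply]
  refine Finset.sum_eq_zero fun i _ => Finset.sum_eq_zero fun j _ => ?_
  rw [Finset.sum_mul]
  refine Finset.sum_eq_zero fun k _ => ?_
  unfold Am
  simp only [Matrix.of_apply]
  by_cases h1 : F.Adj i k
  · by_cases h2 : F.Adj k j
    · by_cases h3 : F.Adj j i
      · exfalso
        exact hF {i, k, j} (SimpleGraph.is3Clique_triple_iff.2 ⟨h1, h3.symm, h2⟩)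
      · rw [if_neg h3, mul_zero]
    · rw [if_neg h2, mul_zero, zero_mul]
  · rw [if_neg h1, zero_mul, zero_mul]

end

theorem t_TRC : S_TRC := by
  intro V _ _ F hF hV
  have hn : (Fintype.card V : ℝ) ≠ 0 := by positivity
  set J := TRC_J V with hJ
  set A := Am F with hA
  set n : ℝ := (Fintype.card V : ℝ) with hn'
  set d := dbar F with hd
  have hJJ : J * J = J := TRC_JJ hn
  have hJAJ : J * A * J = d • J := TRC_JAJ F
  have tJ : J.trace = 1 := by
    have h1 := TRC_trJ (V := V) 1
    rw [one_mul] at h1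
    rw [hJ, h1]
    simp only [Matrix.one_apply, Finset.sum_ite_eq, Finset.mem_univ, if_true, Finset.sum_const,
      Finset.card_univ, nsmul_eq_mul, mul_one]
    exact div_self hn
  have tAJ : (A * J).trace = d := TRC_A1 F
  have tAAJ : (A * A * J).trace = s2 F := TRC_A2 F
  have tAAAJ : (A * A * A * J).trace = s3 F := TRC_A3 F
  have tAA : (A * A).trace = n * d := TRC_AA F hn
  have tA : A.trace = 0 := TRC_A F
  have tAAA : (A * A * A).trace = 0 := TRC_AAA F hF
  set P := Pr V with hP
  have hPJ : P = 1 - J := rfl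
  have hPP : P * P = P := by
    rw [hPJ, sub_mul, one_mul, mul_sub, mul_one, hJJ, sub_self, sub_zero]
  set X := A * P with hX
  have hXP : X * P = X := by rw [hX, mul_assoc, hPP]
  have hXe : X = A - A * J := by rw [hX, hPJ, mul_sub, mul_one]
  have hM : MM F = -(P + P * X) := by
    show -(P * (1 + A) * P) = -(P + P * X)
    rw [mul_add, mul_one, add_mul, hPP, mul_assoc]
  have tP : P.trace = n - 1 := by
    rw [hPJ, Matrix.trace_sub, tJ, Matrix.trace_one]
  have e1 : P * X * P = P * X := by rw [mul_assoc, hXP]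
  have e2 : P * (P * X) = P * X := by rw [← mul_assoc, hPP]
  have e3 : P * X * (P * X) = P * (X * X) := by
    calc P * X * (P * X) = P * (X * P) * X := by simp only [mul_assoc]
      _ = P * (X * X) := by rw [hXP, mul_assoc]
  have t1 : (P * X).trace = X.trace := by rw [Matrix.trace_mul_comm, hXP]
  have t2 : (P * (X * X)).trace = (X * X).trace := by
    rw [Matrix.trace_mul_comm, mul_assoc, hXP]
  have t3 : (P * (X * X * X)).trace = (X * X * X).trace := by
    rw [Matrix.trace_mul_comm, mul_assoc, hXP]
  have tX : X.trace = -d := by rw [hXe, Matrix.trace_sub, tA, tAJ, zero_sub]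
  have tAJA : (A * J * A).trace = s2 F := by
    rw [Matrix.trace_mul_cycle, tAAJ]
  have tAJAJ : (A * J * A * J).trace = d ^ 2 := by
    have : A * J * A * J = A * (J * A * J) := by simp only [mul_assoc]
    rw [this, hJAJ, mul_smul_comm, Matrix.trace_smul, tAJ, smul_eq_mul, pow_two]
  have tXX : (X * X).trace = n * d - 2 * s2 F + d ^ 2 := by
    have e : X * X = A * A - A * A * J - A * J * A + A * J * A * J := by
      rw [hXe]; noncomm_ring
    rw [e, Matrix.trace_add, Matrix.trace_sub, Matrix.trace_sub, tAA, tAAJ, tAJA, tAJAJ]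
    ring
  have tXXX : (X * X * X).trace = -3 * s3 F + 3 * d * s2 F - d ^ 3 := by
    have e : X * X * X = A * A * A - A * A * A * J - A * A * J * A - A * J * A * A +
        A * A * J * A * J + A * J * A * A * J + A * J * A * J * A - A * J * A * J * A * J := by
      rw [hXe]; noncomm_ring
    have f1 : (A * A * J * A).trace = s3 F := by
      rw [Matrix.trace_mul_comm, ← tAAAJ]
      simp only [mul_assoc]
    have f2 : (A * J * A * A).trace = s3 F := by
      have : A * J * A * A = A * J * (A * A) := by simp only [mul_assoc]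
      rw [this, Matrix.trace_mul_comm, ← tAAAJ]
      simp only [mul_assoc]
    have f3 : (A * A * J * A * J).trace = d * s2 F := by
      have : A * A * J * A * J = A * A * (J * A * J) := by simp only [mul_assoc]
      rw [this, hJAJ, mul_smul_comm, Matrix.trace_smul, tAAJ, smul_eq_mul]
    have f4 : (A * J * A * A * J).trace = d * s2 F := by
      have : J * (A * J * A * A) = J * A * J * (A * A) := by simp only [mul_assoc]
      rw [Matrix.trace_mul_comm, this, hJAJ, smul_mul_assoc, Matrix.trace_smul,
        Matrix.trace_mul_comm, tAAJ, smul_eq_mul]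
    have f5 : (A * J * A * J * A).trace = d * s2 F := by
      have : A * J * A * J * A = A * (J * A * J) * A := by simp only [mul_assoc]
      rw [this, hJAJ, mul_smul_comm, smul_mul_assoc, Matrix.trace_smul, tAJA, smul_eq_mul]
    have f6 : (A * J * A * J * A * J).trace = d ^ 3 := by
      have : A * J * A * J * A * J = A * (J * A * J) * A * J := by simp only [mul_assoc]
      rw [this, hJAJ, mul_smul_comm, smul_mul_assoc, smul_mul_assoc, Matrix.trace_smul, tAJAJ,
        smul_eq_mul]
      ring
    rw [e, Matrix.trace_sub, Matrix.trace_add, Matrix.trace_add, Matrix.trace_add,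
      Matrix.trace_sub, Matrix.trace_sub, Matrix.trace_sub, tAAA, tAAAJ, f1, f2, f3, f4, f5, f6]
    ring
  have hMM : MM F * MM F = P + P * X + P * X + P * (X * X) := by
    rw [hM, neg_mul_neg, add_mul, mul_add, mul_add, hPP, e1, e2, e3]
    abel
  have hMMM : MM F * MM F * MM F = -(P + P * X + P * X + P * X + P * (X * X) + P * (X * X) +
      P * (X * X) + P * (X * X * X)) := by
    have e4 : P * (X * X) * P = P * (X * X) := by
      calc P * (X * X) * P = P * X * (X * P) := by simp only [mul_assoc]
        _ = P * (X * X) := by rw [hXP, mul_assoc]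
    have e5 : P * (X * X) * (P * X) = P * (X * X * X) := by
      rw [← mul_assoc, e4, mul_assoc]
    rw [hMM, hM, mul_neg]
    congr 1
    rw [mul_add, add_mul, add_mul, add_mul, add_mul, add_mul, add_mul, hPP, e1, e2, e3, e4, e5]
    abel
  refine ⟨?_, ?_, ?_⟩
  · rw [hM, Matrix.trace_neg, Matrix.trace_add, tP, t1, tX]
    ring
  · rw [hMM, Matrix.trace_add, Matrix.trace_add, Matrix.trace_add, tP, t1, t2, tX, tXX]
    ring
  · rw [hMMM, Matrix.trace_neg]
    simp only [Matrix.trace_add]
    rw [tP, t1, t2, t3, tX, tXX, tXXX]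
    ring

end H175A2
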