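import Pool.Agent.H175R.A2.Defs

set_option autoImplicit false
open scoped BigOperators Matrix

namespace H175A2

theorem TWO_parseval {V : Type} [Fintype V] [DecidableEq V] {M : Matrix V V ℝ}
    (h : M.IsHermitian) (x y : V → ℝ) :
    x ⬝ᵥ y = ∑ j, ((h.eigenvectorBasis j : V → ℝ) ⬝ᵥ x) * ((h.eigenvectorBasis j : V → ℝ) ⬝ᵥ y) := by
  have h1 := h.eigenvectorBasis.sum_inner_mul_inner (WithLp.toLp 2 x) (WithLp.toLp 2 y)
  have h2 : ∀ a b : EuclideanSpace ℝ V, inner ℝ a b = (a : V → ℝ) ⬝ᵥ (b : V → ℝ) := by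
    intro a b
    rw [EuclideanSpace.inner_eq_star_dotProduct, star_trivial, dotProduct_comm]
  simp only [h2] at h1
  rw [← h1]
  refine Finset.sum_congr rfl fun j _ => ?_
  rw [dotProduct_comm x]

theorem TWO_form {V : Type} [Fintype V] [DecidableEq V] {M : Matrix V V ℝ}
    (h : M.IsHermitian) (x : V → ℝ) :
    x ⬝ᵥ (M *ᵥ x) = ∑ j, h.eigenvalues j * ((h.eigenvectorBasis j : V → ℝ) ⬝ᵥ x) ^ 2 := by
  rw [TWO_parseval h]
  refine Finset.sum_congr rfl fun j _ => ?_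
  have hT : Mᵀ = M := by
    have := h.eq
    rwa [Matrix.conjTranspose_eq_transpose_of_trivial] at this
  have h1 : (h.eigenvectorBasis j : V → ℝ) ⬝ᵥ (M *ᵥ x) =
      h.eigenvalues j * ((h.eigenvectorBasis j : V → ℝ) ⬝ᵥ x) := by
    rw [Matrix.dotProduct_mulVec, ← Matrix.mulVec_transpose, hT, h.mulVec_eigenvectorBasis,
      smul_dotProduct, smul_eq_mul]
  rw [h1]
  ring

theorem t_TWO : S_TWO := by
  intro V _ _ M h w₁ w₂ hind hform
  have hpos : ∀ w : V → ℝ, w ≠ 0 → 0 < w ⬝ᵥ w := by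
    intro w hw
    have h1 : 0 ≤ w ⬝ᵥ w := Finset.sum_nonneg fun i _ => mul_self_nonneg _
    refine lt_of_le_of_ne h1 fun h2 => hw (dotProduct_self_eq_zero.1 h2.symm)
  have hself : ∀ w : V → ℝ, w ⬝ᵥ w = ∑ j, ((h.eigenvectorBasis j : V → ℝ) ⬝ᵥ w) ^ 2 := by
    intro w
    rw [TWO_parseval h w w]
    exact Finset.sum_congr rfl fun j _ => by ring
  constructor
  · intro i
    obtain ⟨a, b, hab, horth⟩ : ∃ a b : ℝ, (a ≠ 0 ∨ b ≠ 0) ∧
        (h.eigenvectorBasis i : V → ℝ) ⬝ᵥ (a • w₁ + b • w₂) = 0 := by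
      by_cases hp : (h.eigenvectorBasis i : V → ℝ) ⬝ᵥ w₁ = 0 ∧
          (h.eigenvectorBasis i : V → ℝ) ⬝ᵥ w₂ = 0
      · refine ⟨1, 0, Or.inl one_ne_zero, ?_⟩
        rw [one_smul, zero_smul, add_zero]
        exact hp.1
      · refine ⟨(h.eigenvectorBasis i : V → ℝ) ⬝ᵥ w₂, -((h.eigenvectorBasis i : V → ℝ) ⬝ᵥ w₁),
          ?_, ?_⟩
        · by_contra hc
          push Not at hc
          exact hp ⟨neg_eq_zero.1 hc.2, hc.1⟩
        · rw [dotProduct_add, dotProduct_smul, dotProduct_smul, smul_eq_mul, smul_eq_mul]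
          ring
    have hw0 := hind a b hab
    have hf := hform a b
    set w := a • w₁ + b • w₂ with hw
    have hww := hpos w hw0
    rw [TWO_form h w] at hf
    have hle : ∀ j, ((h.eigenvectorBasis j : V → ℝ) ⬝ᵥ w) ^ 2 ≤ w ⬝ᵥ w := by
      intro j
      rw [hself w]
      exact Finset.single_le_sum (f := fun j => ((h.eigenvectorBasis j : V → ℝ) ⬝ᵥ w) ^ 2)
        (fun _ _ => sq_nonneg _) (Finset.mem_univ j)
    have hsum : ∑ j, h.eigenvalues j * ((h.eigenvectorBasis j : V → ℝ) ⬝ᵥ w) ^ 2 ≤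
        (∑ j ∈ Finset.univ.erase i, max (h.eigenvalues j) 0) * (w ⬝ᵥ w) := by
      rw [← Finset.add_sum_erase _ _ (Finset.mem_univ i), horth, Finset.sum_mul]
      have : ∑ j ∈ Finset.univ.erase i,
          h.eigenvalues j * ((h.eigenvectorBasis j : V → ℝ) ⬝ᵥ w) ^ 2 ≤
          ∑ j ∈ Finset.univ.erase i, max (h.eigenvalues j) 0 * (w ⬝ᵥ w) := by
        refine Finset.sum_le_sum fun j _ => ?_
        calc h.eigenvalues j * ((h.eigenvectorBasis j : V → ℝ) ⬝ᵥ w) ^ 2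
            ≤ max (h.eigenvalues j) 0 * ((h.eigenvectorBasis j : V → ℝ) ⬝ᵥ w) ^ 2 :=
              mul_le_mul_of_nonneg_right (le_max_left _ _) (sq_nonneg _)
          _ ≤ max (h.eigenvalues j) 0 * (w ⬝ᵥ w) :=
              mul_le_mul_of_nonneg_left (hle j) (le_max_right _ _)
      linarith
    have h4 : 1 / 4 ≤ ∑ j ∈ Finset.univ.erase i, max (h.eigenvalues j) 0 :=
      le_of_mul_le_mul_right (hf.trans hsum) hww
    unfold ps
    rw [← Finset.add_sum_erase _ _ (Finset.mem_univ i)]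
    have := le_max_left (h.eigenvalues i) 0
    linarith
  · by_contra hc
    push Not at hc
    have hw0 := hind 1 0 (Or.inl one_ne_zero)
    have hf := hform 1 0
    set w := (1 : ℝ) • w₁ + (0 : ℝ) • w₂ with hw
    have hww := hpos w hw0
    rw [TWO_form h w, hself w] at hf
    rw [hself w] at hww
    obtain ⟨j0, -, hj0⟩ := Finset.exists_ne_zero_of_sum_ne_zero hww.ne'
    have hlt : ∑ j, h.eigenvalues j * ((h.eigenvectorBasis j : V → ℝ) ⬝ᵥ w) ^ 2 <
        ∑ j, 1 / 4 * ((h.eigenvectorBasis j : V → ℝ) ⬝ᵥ w) ^ 2 := by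
      apply Finset.sum_lt_sum
      · intro j _
        exact mul_le_mul_of_nonneg_right (hc j).le (sq_nonneg _)
      · refine ⟨j0, Finset.mem_univ _, ?_⟩
        exact mul_lt_mul_of_pos_right (hc j0) (lt_of_le_of_ne (sq_nonneg _) hj0.symm)
    rw [← Finset.mul_sum] at hlt
    linarith

end H175A2
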