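import Pool.Agent.H175R.A2.Assemble
import Pool.Agent.H175R.A2.T_HM
import Pool.Agent.H175R.A2.T_MQ
import Pool.Agent.H175R.A2.T_POL
import Pool.Agent.H175R.A2.T_TRC
import Pool.Agent.H175R.A2.T_LOW
import Pool.Agent.H175R.A2.T_S2
import Pool.Agent.H175R.A2.T_TWO
import Pool.Agent.H175R.A2.T_CYC
import Pool.Agent.H175R.A2.T_ODD
import Pool.Agent.H175R.A2.T_RED
import Pool.Agent.H175R.A2.T_NUM

/-!
# Graphs with independence number at most two: assembly
-/

set_option autoImplicit false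

namespace H175A2

theorem alphaTwo
    (V : Type) [Fintype V] [DecidableEq V] (G : SimpleGraph V) [DecidableRel G.Adj]
    (s : Finset V) (hs : G.IsIndepSet (s : Set V))
    (hmax : ∀ t : Finset V, G.IsIndepSet (t : Set V) → t.card ≤ s.card) (h2 : s.card ≤ 2) :
    (Fintype.card V : ℝ) - (s.card : ℝ) ≤
      (((G.adjMatrix ℝ).charpoly.roots).filter (fun x : ℝ => 0 < x)).sum :=
  alpha_two (fun V _ _ F hF P hP hQ => bound t_HM t_MQ t_POL t_TRC t_LOW t_S2 t_TWO t_CYC t_ODD
    (t_RED t_HM) t_NUM V F hF P hP hQ) V G s hs hmax h2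

end H175A2
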